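import Mathlib

/-!
# The Sidon defect of the set of multinomial coefficients has the order of the set itself
-/

namespace Pool.Agent.Results.MP_0896da_co.DefectOrder

open Finset Nat Filter Asymptotics

/-- The set of values `n! / (p₁! ⋯ p_t!)` over all partitions of `n`. -/
def coeffs (n : ℕ) : Finset ℕ :=
  (univ : Finset (Nat.Partition n)).image (fun p => n ! / (p.parts.map Nat.factorial).prod)

/-- `M n` is the number of distinct multinomial coefficients with upper entry `n`. -/
def M (n : ℕ) : ℕ := (coeffs n).card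

/-- Sidon sets (equal summands allowed). -/
def IsSidon (S : Finset ℕ) : Prop :=
  ∀ x ∈ S, ∀ y ∈ S, ∀ u ∈ S, ∀ v ∈ S, x + y = u + v → ({x, y} : Set ℕ) = {u, v}

/-- The largest size of a Sidon subset of the set of multinomial coefficients. -/
noncomputable def s (n : ℕ) : ℕ := by
  classical exact ((coeffs n).powerset.filter IsSidon).sup card

/-- The set of products of factorials over partitions of `n`. -/
def P (n : ℕ) : Finset ℕ :=
  (univ : Finset (Nat.Partition n)).image (fun p => (p.parts.map Nat.factorial).prod)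

lemma prod_dvd (t : Multiset ℕ) : (t.map Nat.factorial).prod ∣ (t.sum)! := by
  induction t using Multiset.induction_on with
  | empty => simp
  | cons a t ih =>
    rw [Multiset.map_cons, Multiset.prod_cons, Multiset.sum_cons]
    exact (Nat.mul_dvd_mul_left _ ih).trans (Nat.factorial_mul_factorial_dvd_factorial_add _ _)

lemma prod_filter (t : Multiset ℕ) (h : ∀ a ∈ t, 0 < a) :
    ((t.filter (fun a => 2 ≤ a)).map Nat.factorial).prod = (t.map Nat.factorial).prod := by
  induction t using Multiset.induction_on with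
  | empty => simp
  | cons a t ih =>
    have ih' := ih (fun b hb => h b (Multiset.mem_cons_of_mem hb))
    have ha := h a (Multiset.mem_cons_self a t)
    by_cases h2 : 2 ≤ a
    · rw [Multiset.filter_cons_of_pos _ h2]
      simp [ih']
    · rw [Multiset.filter_cons_of_neg _ h2]
      have : a = 1 := by omega
      subst this
      simp [ih']

lemma sum_filter_le (t : Multiset ℕ) : (t.filter (fun a => 2 ≤ a)).sum ≤ t.sum := by
  have := Multiset.filter_add_not (fun a => 2 ≤ a) t
  calc (t.filter (fun a => 2 ≤ a)).sum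
      ≤ (t.filter (fun a => 2 ≤ a)).sum + (t.filter (fun a => ¬ 2 ≤ a)).sum := Nat.le_add_right _ _
    _ = t.sum := by rw [← Multiset.sum_add, this]

lemma mem_P {n x : ℕ} : x ∈ P n ↔
    ∃ t : Multiset ℕ, (∀ a ∈ t, 2 ≤ a) ∧ t.sum ≤ n ∧ (t.map Nat.factorial).prod = x := by
  constructor
  · intro h
    obtain ⟨p, -, rfl⟩ := Finset.mem_image.mp h
    refine ⟨p.parts.filter (fun a => 2 ≤ a), ?_, ?_, ?_⟩
    · intro a ha
      exact (Multiset.mem_filter.mp ha).2
    · exact (sum_filter_le _).trans_eq p.parts_sum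
    · exact prod_filter _ (fun a ha => p.parts_pos ha)
  · rintro ⟨t, h2, hsum, rfl⟩
    refine Finset.mem_image.mpr ⟨⟨t + Multiset.replicate (n - t.sum) 1, ?_, ?_⟩, mem_univ _, ?_⟩
    · intro a ha
      rcases Multiset.mem_add.mp ha with h | h
      · have := h2 a h; omega
      · rw [Multiset.eq_of_mem_replicate h]; norm_num
    · rw [Multiset.sum_add, Multiset.sum_replicate]
      simp
      omega
    · simp

lemma P_dvd {n x : ℕ} (h : x ∈ P n) : x ∣ n ! := by
  obtain ⟨t, -, hs, rfl⟩ := mem_P.mp h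
  exact (prod_dvd t).trans (Nat.factorial_dvd_factorial hs)

lemma P_pos {n x : ℕ} (h : x ∈ P n) : 0 < x :=
  Nat.pos_of_dvd_of_pos (P_dvd h) (Nat.factorial_pos n)

lemma P_mono {m n : ℕ} (h : m ≤ n) : P m ⊆ P n := by
  intro x hx
  obtain ⟨t, h2, hs, he⟩ := mem_P.mp hx
  exact mem_P.mpr ⟨t, h2, hs.trans h, he⟩

lemma mul_mem_P {m k x : ℕ} (hk : 2 ≤ k) (hx : x ∈ P m) : k ! * x ∈ P (m + k) := by
  obtain ⟨t, h2, hs, rfl⟩ := mem_P.mp hx
  refine mem_P.mpr ⟨k ::ₘ t, ?_, ?_, by simp⟩
  · intro a ha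
    rcases Multiset.mem_cons.mp ha with rfl | h
    · exact hk
    · exact h2 a h
  · rw [Multiset.sum_cons]; omega

lemma coeffs_eq (n : ℕ) : coeffs n = (P n).image (fun x => n ! / x) := by
  rw [coeffs, P, Finset.image_image]
  rfl

lemma div_inj {n x y : ℕ} (hx : x ∣ n !) (hy : y ∣ n !) (h : n ! / x = n ! / y) : x = y := by
  have h1 := Nat.mul_div_cancel' hx
  have h2 := Nat.mul_div_cancel' hy
  have hpos : 0 < n ! / x := by
    rcases Nat.eq_zero_or_pos (n ! / x) with h0 | h0
    · rw [h0, mul_zero] at h1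
      exact absurd h1.symm (Nat.factorial_ne_zero n)
    · exact h0
  rw [← h] at h2
  exact Nat.eq_of_mul_eq_mul_right hpos (h1.trans h2.symm)

lemma M_eq (n : ℕ) : M n = (P n).card := by
  rw [M, coeffs_eq]
  apply Finset.card_image_of_injOn
  intro x hx y hy h
  exact div_inj (P_dvd hx) (P_dvd hy) h

lemma decompose {n x : ℕ} (hn : 2 ≤ n) (hx : x ∈ P n \ P (n - 1)) :
    ∃ q : ℕ, ∃ k : ℕ, 2 ≤ k ∧ k ≤ n ∧ q ∈ P (n - k) ∧ x = k ! * q := by
  obtain ⟨hx1, hx2⟩ := Finset.mem_sdiff.mp hx
  obtain ⟨t, h2, hs, rfl⟩ := mem_P.mp hx1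
  have hsum : t.sum = n := by
    by_contra hne
    exact hx2 (mem_P.mpr ⟨t, h2, by omega, rfl⟩)
  have ht : t ≠ 0 := by
    rintro rfl
    simp at hsum
    omega
  obtain ⟨k, hk⟩ := Multiset.exists_mem_of_ne_zero ht
  obtain ⟨u, rfl⟩ := Multiset.exists_cons_of_mem hk
  rw [Multiset.sum_cons] at hsum
  refine ⟨(u.map Nat.factorial).prod, k, h2 k hk, by omega, ?_, by simp⟩
  exact mem_P.mpr ⟨u, fun a ha => h2 a (Multiset.mem_cons_of_mem ha), by omega, rfl⟩

lemma card_sdiff_le {n : ℕ} (hn : 2 ≤ n) : (P n \ P (n - 1)).card ≤ (P (n - 2)).card := by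
  classical
  have hch : ∀ x : ℕ, ∃ q : ℕ, x ∈ P n \ P (n - 1) →
      ∃ k : ℕ, 2 ≤ k ∧ k ≤ n ∧ q ∈ P (n - k) ∧ x = k ! * q := by
    intro x
    by_cases hx : x ∈ P n \ P (n - 1)
    · obtain ⟨q, k, h⟩ := decompose hn hx
      exact ⟨q, fun _ => ⟨k, h⟩⟩
    · exact ⟨0, fun h => absurd h hx⟩
  choose f hf using hch
  refine Finset.card_le_card_of_injOn f ?_ ?_
  · intro x hx
    obtain ⟨k, hk2, hkn, hq, -⟩ := hf x hx
    exact P_mono (by omega) hq
  · -- the larger of the two parts gives a contradiction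
    have key : ∀ x y : ℕ, x ∈ P n \ P (n - 1) → ∀ k l : ℕ, 2 ≤ k → k < l → l ≤ n →
        f y ∈ P (n - l) → x = k ! * f y → False := by
      intro x y hx k l hk hkl hln hq he
      have h1 := mul_mem_P hk hq
      rw [← he] at h1
      exact (Finset.mem_sdiff.mp hx).2 (P_mono (by omega) h1)
    intro x hx y hy hxy
    obtain ⟨k, hk2, hkn, hq, hxe⟩ := hf x hx
    obtain ⟨l, hl2, hln, hq', hye⟩ := hf y hy
    rcases lt_trichotomy k l with h | h | h
    · exact (key x y hx k l hk2 h hln hq' (by rw [← hxy]; exact hxe)).elim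
    · subst h
      rw [hxe, hye, hxy]
    · exact (key y x hy l k hl2 h hkn hq (by rw [hxy]; exact hye)).elim

lemma M_rec {n : ℕ} (hn : 2 ≤ n) : M n ≤ M (n - 1) + M (n - 2) := by
  rw [M_eq, M_eq, M_eq]
  calc (P n).card ≤ (P (n - 1) ∪ (P n \ P (n - 1))).card := by
        apply Finset.card_le_card
        intro x hx
        by_cases h : x ∈ P (n - 1)
        · exact Finset.mem_union_left _ h
        · exact Finset.mem_union_right _ (Finset.mem_sdiff.mpr ⟨hx, h⟩)
    _ ≤ (P (n - 1)).card + (P n \ P (n - 1)).card := Finset.card_union_le _ _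
    _ ≤ _ := Nat.add_le_add_left (card_sdiff_le hn) _

lemma M_mono {m n : ℕ} (h : m ≤ n) : M m ≤ M n := by
  rw [M_eq, M_eq]
  exact Finset.card_le_card (P_mono h)

lemma M_le {n : ℕ} (hn : 5 ≤ n) : M n ≤ 13 * M (n - 5) := by
  rcases Nat.lt_or_ge n 6 with h | h
  · have h5 : n = 5 := by omega
    subst h5
    have e2 := M_rec (n := 5) (by norm_num)
    have e3 := M_rec (n := 4) (by norm_num)
    have e4 := M_rec (n := 3) (by norm_num)
    have e5 := M_rec (n := 2) (by norm_num)
    have e6 : M 1 ≤ M 0 := by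
      rw [M_eq, M_eq]
      apply Finset.card_le_card
      intro x hx
      obtain ⟨t, h2, hs, he⟩ := mem_P.mp hx
      have ht : t = 0 := by
        by_contra hne
        obtain ⟨k, hk⟩ := Multiset.exists_mem_of_ne_zero hne
        have := h2 k hk
        have := Multiset.le_sum_of_mem hk
        omega
      subst ht
      exact mem_P.mpr ⟨0, by simp, by simp, he⟩
    norm_num at *
    omega
  · obtain ⟨m, rfl⟩ : ∃ m, n = m + 6 := ⟨n - 6, by omega⟩
    have e1 := M_rec (n := m + 6) (by omega)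
    have e2 := M_rec (n := m + 5) (by omega)
    have e3 := M_rec (n := m + 4) (by omega)
    have e4 := M_rec (n := m + 3) (by omega)
    have e5 := M_rec (n := m + 2) (by omega)
    have e6 := M_mono (m := m) (n := m + 1) (by omega)
    simp only [Nat.reduceSubDiff, Nat.add_sub_cancel] at *
    omega

/-- Every Sidon subset misses at least a third of `M (n - 5)` elements. -/
lemma defect {n : ℕ} (hn : 5 ≤ n) {S : Finset ℕ} (hS : IsSidon S) (hSM : S ⊆ coeffs n) :
    M (n - 5) ≤ 3 * (M n - S.card) := by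
  classical
  set D := coeffs n \ S with hD
  have hDcard : D.card = M n - S.card := by
    rw [hD, Finset.card_sdiff_of_subset hSM, M]
  rw [← hDcard, M_eq]
  -- the basic point attached to `q`
  have h12 : ∀ q ∈ P (n - 5), 12 * q ∈ P n := by
    intro q hq
    have h1 := mul_mem_P (k := 2) le_rfl hq
    have h2 := mul_mem_P (k := 3) (by norm_num) h1
    have e : 3 ! * (2 ! * q) = 12 * q := by norm_num [Nat.factorial]; ring
    rw [e] at h2
    exact P_mono (by omega) h2
  have h6 : ∀ q ∈ P (n - 5), 6 * q ∈ P n := by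
    intro q hq
    have h2 := mul_mem_P (k := 3) (by norm_num) hq
    have e : 3 ! * q = 6 * q := by norm_num [Nat.factorial]
    rw [e] at h2
    exact P_mono (by omega) h2
  have h4 : ∀ q ∈ P (n - 5), 4 * q ∈ P n := by
    intro q hq
    have h1 := mul_mem_P (k := 2) le_rfl hq
    have h2 := mul_mem_P (k := 2) le_rfl h1
    have e : 2 ! * (2 ! * q) = 4 * q := by norm_num [Nat.factorial]; ring
    rw [e] at h2
    exact P_mono (by omega) h2
  have hx : ∀ q ∈ P (n - 5), ∃ x : ℕ, 0 < x ∧ n ! = 12 * q * x := by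
    intro q hq
    obtain ⟨x, hx⟩ := P_dvd (h12 q hq)
    refine ⟨x, ?_, hx⟩
    rcases Nat.eq_zero_or_pos x with h0 | h0
    · rw [h0, mul_zero] at hx
      exact absurd hx (Nat.factorial_ne_zero n)
    · exact h0
  let g : ℕ → ℕ → ℕ := fun c q => n ! / (c * q)
  have hginj : ∀ c : ℕ, 0 < c → (∀ q ∈ P (n - 5), c * q ∈ P n) →
      Set.InjOn (g c) (P (n - 5) : Set ℕ) := by
    intro c hc hcP q hq q' hq' h
    have := div_inj (P_dvd (hcP q hq)) (P_dvd (hcP q' hq')) h
    exact Nat.eq_of_mul_eq_mul_left hc this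
  have hcard : ∀ c : ℕ, 0 < c → (∀ q ∈ P (n - 5), c * q ∈ P n) →
      ((P (n - 5)).filter (fun q => g c q ∈ D)).card ≤ D.card := by
    intro c hc hcP
    refine Finset.card_le_card_of_injOn (g c) ?_ ?_
    · intro q hq
      exact (Finset.mem_filter.mp hq).2
    · intro q hq q' hq' h
      exact hginj c hc hcP (Finset.mem_filter.mp hq).1 (Finset.mem_filter.mp hq').1 h
  have hcover : P (n - 5) ⊆ ((P (n - 5)).filter (fun q => g 12 q ∈ D)) ∪
      (((P (n - 5)).filter (fun q => g 6 q ∈ D)) ∪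
        ((P (n - 5)).filter (fun q => g 4 q ∈ D))) := by
    intro q hq
    by_contra hcon
    simp only [Finset.mem_union, Finset.mem_filter, hq, true_and, not_or] at hcon
    obtain ⟨c1, c2, c3⟩ := hcon
    have hin : ∀ c : ℕ, c * q ∈ P n → g c q ∉ D → g c q ∈ S := by
      intro c hc hgD
      have hmem : g c q ∈ coeffs n := by
        rw [coeffs_eq]
        exact Finset.mem_image.mpr ⟨c * q, hc, rfl⟩
      by_contra hnot
      exact hgD (Finset.mem_sdiff.mpr ⟨hmem, hnot⟩)
    have s1 := hin 12 (h12 q hq) c1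
    have s2 := hin 6 (h6 q hq) c2
    have s3 := hin 4 (h4 q hq) c3
    obtain ⟨x, hxpos, hxe⟩ := hx q hq
    have hqpos := P_pos hq
    have g1 : g 12 q = x := by
      simp only [g]
      rw [hxe]
      exact Nat.mul_div_cancel_left x (by positivity)
    have g2 : g 6 q = 2 * x := by
      simp only [g]
      have : n ! = 6 * q * (2 * x) := by rw [hxe]; ring
      rw [this]
      exact Nat.mul_div_cancel_left _ (by positivity)
    have g3 : g 4 q = 3 * x := by
      simp only [g]
      have : n ! = 4 * q * (3 * x) := by rw [hxe]; ring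
      rw [this]
      exact Nat.mul_div_cancel_left _ (by positivity)
    rw [g1] at s1
    rw [g2] at s2
    rw [g3] at s3
    have hset := hS x s1 (3 * x) s3 (2 * x) s2 (2 * x) s2 (by ring)
    have : x ∈ ({2 * x, 2 * x} : Set ℕ) := by
      rw [← hset]
      simp
    simp at this
    omega
  calc (P (n - 5)).card ≤ _ := Finset.card_le_card hcover
    _ ≤ _ := Finset.card_union_le _ _
    _ ≤ D.card + (D.card + D.card) := by
        refine Nat.add_le_add (hcard 12 (by norm_num) h12) ?_
        refine (Finset.card_union_le _ _).trans ?_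
        exact Nat.add_le_add (hcard 6 (by norm_num) h6) (hcard 4 (by norm_num) h4)
    _ = 3 * D.card := by ring

lemma s_le (n : ℕ) : s n ≤ M n := by
  classical
  unfold s
  refine Finset.sup_le ?_
  intro S hS
  exact Finset.card_le_card (Finset.mem_powerset.mp (Finset.mem_filter.mp hS).1)

lemma exists_s (n : ℕ) : ∃ S : Finset ℕ, S ⊆ coeffs n ∧ IsSidon S ∧ S.card = s n := by
  classical
  have hne : ((coeffs n).powerset.filter IsSidon).Nonempty := by
    refine ⟨∅, Finset.mem_filter.mpr ⟨Finset.empty_mem_powerset _, ?_⟩⟩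
    intro x hx
    exact absurd hx (Finset.notMem_empty x)
  obtain ⟨S, hS, hmax⟩ := Finset.exists_mem_eq_sup _ hne card
  refine ⟨S, Finset.mem_powerset.mp (Finset.mem_filter.mp hS).1, (Finset.mem_filter.mp hS).2, ?_⟩
  unfold s
  exact hmax.symm

lemma main {n : ℕ} (hn : 5 ≤ n) : M n ≤ 39 * (M n - s n) := by
  obtain ⟨S, hS, hSid, hcard⟩ := exists_s n
  have h1 := defect hn hSid hS
  have h2 := M_le hn
  rw [hcard] at h1
  omega

/-- The Sidon defect `M n - s n` of the set of multinomial coefficients is of exact order `M n`: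
it is at least `M n / 39` for every `n ≥ 5`. -/
theorem result :
    (∀ n : ℕ, 5 ≤ n → (M n : ℝ) / 39 ≤ (M n : ℝ) - s n ∧ (M n : ℝ) - s n ≤ M n) ∧
    (fun n : ℕ => (M n : ℝ) - s n) =Θ[atTop] (fun n : ℕ => (M n : ℝ)) := by
  have hmain : ∀ n : ℕ, 5 ≤ n → (M n : ℝ) / 39 ≤ (M n : ℝ) - s n ∧ (M n : ℝ) - s n ≤ M n := by
    intro n hn
    have h1 : M n ≤ 39 * (M n - s n) := main hn
    have h2 := s_le n
    have h3 : (M n : ℝ) ≤ 39 * ((M n : ℝ) - s n) := by
      have h4 : ((M n : ℕ) : ℝ) ≤ ((39 * (M n - s n) : ℕ) : ℝ) := Nat.cast_le.mpr h1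
      rw [Nat.cast_mul, Nat.cast_sub h2] at h4
      have h5 : ((39 : ℕ) : ℝ) = 39 := by norm_num
      rw [h5] at h4
      exact h4
    refine ⟨by linarith, ?_⟩
    have : (0 : ℝ) ≤ s n := Nat.cast_nonneg _
    linarith
  refine ⟨hmain, ?_, ?_⟩
  · refine IsBigO.of_bound 1 ?_
    filter_upwards [eventually_ge_atTop 5] with n hn
    obtain ⟨h1, h2⟩ := hmain n hn
    have h0 : (0 : ℝ) ≤ M n := Nat.cast_nonneg _
    rw [Real.norm_of_nonneg (by linarith), Real.norm_of_nonneg h0]
    linarith
  · refine IsBigO.of_bound 39 ?_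
    filter_upwards [eventually_ge_atTop 5] with n hn
    obtain ⟨h1, h2⟩ := hmain n hn
    have h0 : (0 : ℝ) ≤ M n := Nat.cast_nonneg _
    rw [Real.norm_of_nonneg h0, Real.norm_of_nonneg (by linarith)]
    linarith

end Pool.Agent.Results.MP_0896da_co.DefectOrder
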